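import Pool.Graph.R_seed8.R130.Theon.Rank

/-!
The rank theorem from the vanishing of the key integrals; edited copy of parts of the library file
`R_seed8/R130/Theon/Rank.lean`.
-/

set_option autoImplicit false

open MeasureTheory ProbabilityTheory

namespace Pool.Agent.KS7_39.D52

open Pool.Agent.R130.Theon Pool.Agent.R130.Theon.RankD

variable {L L' : FirstOrder.Language.{0, 0}} {X : Type} [MeasurableSpace X]

lemma key_gcs1 (μ : Measure X) [IsProbabilityMeasure μ] (N : EucStr L X)
    (p : Σ n, L.Relations n) (A₀ : Idx (Fin p.1)) (U : Set X)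
    (hU : MeasurableSet U) (hind : IndepFun N.arr (NU (im p.1 A₀).1.card U hU).arr (iid μ)) (D : Idx (Fin p.1) → Set X) (hD : ∀ B, MeasurableSet (D B))
    (G : Finset (Idx (Fin p.1))) (hG : ∀ B ∈ G, ¬ A₀.1 ⊆ B.1) :
    ∫ θ, (tv p (N.arr θ) * (ind U (θ (im p.1 A₀)) - μ.real U)) *
      ∏ B ∈ G, ind (D B) (θ (im p.1 B)) ∂(iid μ) = 0 := by
  classical
  have hcard : (im p.1 A₀).1.card = A₀.1.card := by simp [im, Idx.map]
  set l : List (ℕ × ℕ) := (im p.1 A₀).1.toList.map (fun v => (v, v + p.1)) with hl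
  have hl1 : l.map Prod.fst = (im p.1 A₀).1.toList := by
    rw [hl, List.map_map]
    have : (Prod.fst ∘ fun v : ℕ => (v, v + p.1)) = id := rfl
    rw [this, List.map_id]
  have hl2 : l.map Prod.snd = (im p.1 A₀).1.toList.map (fun v => v + p.1) := by
    rw [hl, List.map_map]
    rfl
  have hmem : ∀ q ∈ l, q.1 ∈ (im p.1 A₀).1 ∧ q.2 = q.1 + p.1 := by
    intro q hq
    rw [hl, List.mem_map] at hq
    obtain ⟨v, hv, rfl⟩ := hq
    exact ⟨Finset.mem_toList.1 hv, rfl⟩
  have hnd : (l.map Prod.fst).Nodup := by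
    rw [hl1]
    exact Finset.nodup_toList _
  have hnd' : (l.map Prod.snd).Nodup := by
    rw [hl2]
    exact (Finset.nodup_toList _).map (add_left_injective _)
  have hc : ∀ B : Idx (Fin p.1), ∃ v, B ∈ G → v ∈ (im p.1 A₀).1 ∧ v ∉ (im p.1 B).1 := by
    intro B
    by_cases hB : B ∈ G
    · obtain ⟨i, hi, hi'⟩ := Finset.not_subset.1 (hG B hB)
      refine ⟨i, fun _ => ⟨(mem_im A₀ _).2 ⟨i, hi, rfl⟩, fun h => ?_⟩⟩
      obtain ⟨j, hj, hj'⟩ := (mem_im B _).1 h
      exact hi' (Fin.ext hj' ▸ hj)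
    · exact ⟨0, fun h => absurd h hB⟩
  choose c hc using hc
  clear_value l
  obtain ⟨u, hu⟩ : ∃ u : ℕ → (Idx ℕ → X) → ℝ, u = fun v θ =>
      ∏ B ∈ G.filter (fun B => c B = v), ind (D B) (θ (im p.1 B)) := ⟨_, rfl⟩
  have hprod : ∀ θ : Idx ℕ → X, (l.map fun q => u q.1 θ).prod =
      ∏ B ∈ G, ind (D B) (θ (im p.1 B)) := by
    intro θ
    have h1 : (l.map fun q => u q.1 θ) = (l.map Prod.fst).map (fun v => u v θ) := by
      rw [List.map_map]
      rfl
    rw [h1, hl1, Finset.prod_map_toList, hu]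
    exact Finset.prod_fiberwise_of_maps_to (fun B hB => (hc B hB).1) _
  simp_rw [← hprod]
  refine gcs (actC X) (iid μ) (fun σ => iid_permC μ σ) (Finset.range p.1) l hnd hnd' ?_ ?_
    (fun θ => tv p (N.arr θ) * (ind U (θ (im p.1 A₀)) - μ.real U)) ?_ ?_ ?_ u ?_ ?_ ?_ ?_
  · intro q hq
    exact Finset.mem_range.2 (im_lt A₀ (hmem q hq).1)
  · intro q hq
    rw [(hmem q hq).2, Finset.mem_range]
    omega
  · exact ((measurable_tv p).comp N.measurable_arr).mul
      (((measurable_ind hU).comp (measurable_pi_apply _)).sub measurable_const)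
  · refine ⟨1 * (1 + 1), fun θ => ?_⟩
    rw [abs_mul]
    refine mul_le_mul (tv_bdd _ _) ?_ (abs_nonneg _) zero_le_one
    refine (abs_sub _ _).trans (add_le_add (ind_bdd _ _) ?_)
    rw [abs_of_nonneg measureReal_nonneg]
    exact measureReal_le_one
  · intro σ hσ θ
    have h1 : N.arr ((actC X).T σ θ) p Fin.val = N.arr θ p Fin.val := by
      change N.arr (permC σ θ) p Fin.val = N.arr θ p Fin.val
      rw [N.arr_permC]
      simp only [permS]
      congr 1
      funext i
      exact hσ _ (Finset.mem_range.2 i.2)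
    have h2 : (actC X).T σ θ (im p.1 A₀) = θ (im p.1 A₀) := by
      change permC σ θ (im p.1 A₀) = θ (im p.1 A₀)
      simp only [permC]
      rw [im_fix]
      intro w hw
      exact hσ w (Finset.mem_range.2 (im_lt A₀ hw))
    simp only [tv, h1, h2]
  · intro q hq
    rw [hu]
    exact Finset.measurable_prod _ fun B _ =>
      (measurable_ind (hD B)).comp (measurable_pi_apply _)
  · intro q hq
    refine ⟨1, fun θ => ?_⟩
    rw [hu, Finset.abs_prod]
    exact Finset.prod_le_one (fun B _ => abs_nonneg _) (fun B _ => ind_bdd _ _)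
  · intro q hq σ hσ θ
    rw [hu]
    refine Finset.prod_congr rfl fun B hB => ?_
    rw [Finset.mem_filter] at hB
    have h2 : (actC X).T σ θ (im p.1 B) = θ (im p.1 B) := by
      change permC σ θ (im p.1 B) = θ (im p.1 B)
      simp only [permC]
      rw [im_fix]
      intro w hw
      refine hσ w (Finset.mem_erase.2 ⟨?_, Finset.mem_range.2 (im_lt B hw)⟩)
      rintro rfl
      exact (hc B hB.1).2 (hB.2 ▸ hw)
    rw [h2]
  · rw [oct_mul]
    have h1 : oct (actC X) l (fun θ => tv p (N.arr θ)) =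
        fun θ => oct (actS L) l (tv p) (N.arr θ) :=
      oct_comp (actC X) (actS L) N.arr (fun σ z => N.arr_permC σ z) l (tv p)
    set M := NU (im p.1 A₀).1.card U hU with hM
    have h2 : (fun θ : Idx ℕ → X => ind U (θ (im p.1 A₀)) - μ.real U) =
        fun θ => (fun K : Str (langOne (im p.1 A₀).1.card) =>
          (if K ⟨(im p.1 A₀).1.card, ⟨rfl⟩⟩ ((im p.1 A₀).1.orderEmbOfFin rfl) then (1 : ℝ) else 0)
            - μ.real U) (M.arr θ) := by
      funext θ
      simp only
      congr 1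
      have := NU_arr (im p.1 A₀).1.card U hU (im p.1 A₀) rfl θ
      by_cases h : θ (im p.1 A₀) ∈ U
      · rw [if_pos (this.2 h)]
        simp [ind, h]
      · rw [if_neg (fun h' => h (this.1 h'))]
        simp [ind, h]
    have h3 := oct_comp (actC X) (actS _) M.arr (fun σ z => M.arr_permC σ z) l
      (fun K : Str (langOne (im p.1 A₀).1.card) =>
          (if K ⟨(im p.1 A₀).1.card, ⟨rfl⟩⟩ ((im p.1 A₀).1.orderEmbOfFin rfl) then (1 : ℝ) else 0)
            - μ.real U)
    rw [← h2] at h3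
    have h4 : Measurable (fun K : Str (langOne (im p.1 A₀).1.card) =>
          (if K ⟨(im p.1 A₀).1.card, ⟨rfl⟩⟩ ((im p.1 A₀).1.orderEmbOfFin rfl) then (1 : ℝ) else 0)
            - μ.real U) := by
      refine Measurable.sub (Measurable.ite ?_ measurable_const measurable_const) measurable_const
      refine measurableSet_setOfPred.2 ?_
      exact (measurable_pi_apply (((im p.1 A₀).1.orderEmbOfFin rfl) : Fin _ → ℕ)).comp
        (measurable_pi_apply (⟨(im p.1 A₀).1.card, ⟨rfl⟩⟩ :
          Σ n, (langOne (im p.1 A₀).1.card).Relations n))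
    have h5 := hind.comp
      (measurable_oct (actS L) l (tv p) (measurable_tv p)) (measurable_oct (actS _) l _ h4)
    have h6 := h5.integral_fun_mul_eq_mul_integral
      ((measurable_oct (actS L) l (tv p) (measurable_tv p)).comp
        N.measurable_arr).aestronglyMeasurable
      ((measurable_oct (actS _) l _ h4).comp M.measurable_arr).aestronglyMeasurable
    have h7 : ∫ θ, oct (actC X) l (fun θ => ind U (θ (im p.1 A₀)) - μ.real U) θ ∂(iid μ) = 0 := by
      refine integral_oct_coord μ l (im p.1 A₀) hnd hnd' (fun q hq => (hmem q hq).1) ?_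
        (fun x => ind U x - μ.real U) ((measurable_ind hU).sub measurable_const) ?_
      · intro q hq h
        have := im_lt A₀ h
        rw [(hmem q hq).2] at this
        omega
      · rw [integral_sub, integral_ind μ hU]
        · simp
        · exact gcs_integrable μ _ (measurable_ind hU) ⟨1, ind_bdd U⟩
        · exact integrable_const _
    rw [h1, h3]
    simp only [Function.comp] at h6
    rw [h6]
    rw [h3] at h7
    rw [h7, mul_zero]

/-- The key integrals vanish. -/
def KeyV (μ : Measure X) [IsProbabilityMeasure μ] (N : EucStr L X) (ℓ : ℕ) : Prop :=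
  ∀ (p : Σ n, L.Relations n) (A₀ : Idx (Fin p.1)) (_ : ℓ < A₀.1.card) (U : Set X)
    (_ : MeasurableSet U) (D : Idx (Fin p.1) → Set X) (_ : ∀ B, MeasurableSet (D B))
    (G : Finset (Idx (Fin p.1))) (_ : ∀ B ∈ G, ¬ A₀.1 ⊆ B.1),
    ∫ θ, (tv p (N.arr θ) * (ind U (θ (im p.1 A₀)) - μ.real U)) *
      ∏ B ∈ G, ind (D B) (θ (im p.1 B)) ∂(iid μ) = 0

lemma box_iid1 (μ : Measure X) [IsProbabilityMeasure μ] (N : EucStr L X) (ℓ : ℕ)
    (hkey : KeyV μ N ℓ)
    (p : Σ n, L.Relations n) (D : Idx (Fin p.1) → Set X) (hD : ∀ B, MeasurableSet (D B))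
    (G : Finset (Idx (Fin p.1))) (hG : ∀ B ∈ G, B.1.card ≤ ℓ)
    (H : Finset (Idx (Fin p.1))) (hH : ∀ B ∈ H, ℓ < B.1.card) :
    ∫ θ, tv p (N.arr θ) * ∏ B ∈ H ∪ G, ind (D B) (θ (im p.1 B)) ∂(iid μ) =
      (∏ B ∈ H, μ.real (D B)) *
        ∫ θ, tv p (N.arr θ) * ∏ B ∈ G, ind (D B) (θ (im p.1 B)) ∂(iid μ) := by
  classical
  revert hH
  refine Finset.induction_on_max_value (fun B : Idx (Fin p.1) => B.1.card) H ?_ ?_
  · intro _
    simp
  · intro a s ha hmax ih hH
    have hal : ℓ < a.1.card := hH a (Finset.mem_insert_self _ _)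
    have ha' : a ∉ s ∪ G := by
      rw [Finset.mem_union, not_or]
      exact ⟨ha, fun h => absurd (hG a h) (not_le.2 hal)⟩
    have key := hkey p a hal (D a) (hD a) D hD (s ∪ G) (by
      intro B hB hsub
      rcases Finset.mem_union.1 hB with h | h
      · have h1 := hmax B h
        have h2 : a.1 = B.1 := Finset.eq_of_subset_of_card_le hsub h1
        exact ha (by rw [show a = B from Subtype.ext h2]; exact h)
      · exact absurd ((Finset.card_le_card hsub).trans (hG B h)) (not_le.2 hal))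
    have mt : Measurable fun θ : Idx ℕ → X => tv p (N.arr θ) :=
      (measurable_tv p).comp N.measurable_arr
    have i1 : Integrable (fun θ : Idx ℕ → X => tv p (N.arr θ) *
        (ind (D a) (θ (im p.1 a)) * ∏ B ∈ s ∪ G, ind (D B) (θ (im p.1 B)))) (iid μ) := by
      refine gcs_integrable _ _ (mt.mul (((measurable_ind (hD a)).comp
        (measurable_pi_apply _)).mul (measurable_boxI D hD _))) ⟨1 * (1 * 1), fun θ => ?_⟩
      rw [abs_mul, abs_mul]
      exact mul_le_mul (tv_bdd _ _) (mul_le_mul (ind_bdd _ _) (bdd_ind_prod D _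
        (fun B => θ (im p.1 B))) (abs_nonneg _) zero_le_one) (by positivity) zero_le_one
    have i2 : Integrable (fun θ : Idx ℕ → X => μ.real (D a) * (tv p (N.arr θ) *
        ∏ B ∈ s ∪ G, ind (D B) (θ (im p.1 B)))) (iid μ) := by
      refine Integrable.const_mul (gcs_integrable _ _ (mt.mul (measurable_boxI D hD _))
        ⟨1 * 1, fun θ => ?_⟩) _
      rw [Pi.mul_apply, abs_mul]
      exact mul_le_mul (tv_bdd _ _) (bdd_ind_prod D _
        (fun B => θ (im p.1 B))) (abs_nonneg _) zero_le_one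
    have e1 : ∀ θ : Idx ℕ → X, (tv p (N.arr θ) * (ind (D a) (θ (im p.1 a)) - μ.real (D a))) *
        ∏ B ∈ s ∪ G, ind (D B) (θ (im p.1 B)) =
        tv p (N.arr θ) * (ind (D a) (θ (im p.1 a)) * ∏ B ∈ s ∪ G, ind (D B) (θ (im p.1 B))) -
        μ.real (D a) * (tv p (N.arr θ) * ∏ B ∈ s ∪ G, ind (D B) (θ (im p.1 B))) := by
      intro θ
      ring
    simp_rw [e1] at key
    rw [integral_sub i1 i2, integral_const_mul,
      ih (fun B hB => hH B (Finset.mem_insert_of_mem hB))] at key
    rw [Finset.insert_union, Finset.prod_insert ha]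
    simp_rw [Finset.prod_insert ha']
    linarith

lemma box_pi1 (μ : Measure X) [IsProbabilityMeasure μ] (N : EucStr L X) (ℓ : ℕ)
    (hkey : KeyV μ N ℓ)
    (p : Σ n, L.Relations n) (D : Idx (Fin p.1) → Set X) (hD : ∀ B, MeasurableSet (D B))
    (H G : Finset (Idx (Fin p.1))) (hH : ∀ B ∈ H, ℓ < B.1.card)
    (hG : ∀ B ∈ G, B.1.card ≤ ℓ) (hHG : H ∪ G = Finset.univ) :
    ∫ x, ind (N.peon p) x * ∏ B, ind (D B) (x B) ∂(Measure.pi fun _ => μ) =
      (∏ B ∈ H, μ.real (D B)) *
        ∫ x, ind (N.peon p) x * ∏ B ∈ G, ind (D B) (x B) ∂(Measure.pi fun _ => μ) := by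
  have h1 := box_iid1 μ N ℓ hkey p D hD G hG H hH
  have hmeas : Measurable (fun (θ : Idx ℕ → X) (A : Idx (Fin p.1)) => θ (im p.1 A)) :=
    measurable_pi_lambda _ fun A => measurable_pi_apply _
  have h2 : (iid μ).map (fun (θ : Idx ℕ → X) (A : Idx (Fin p.1)) => θ (im p.1 A)) =
      Measure.pi (fun _ => μ) := map_iid μ Fin.val Fin.val_injective
  have h3 : ∀ θ : Idx ℕ → X, tv p (N.arr θ) =
      ind (N.peon p) ((fun (θ : Idx ℕ → X) (A : Idx (Fin p.1)) => θ (im p.1 A)) θ) := by
    intro θ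
    have h4 : N.arr θ p Fin.val ↔ (fun A : Idx (Fin p.1) => θ (im p.1 A)) ∈ N.peon p := by
      constructor
      · rintro ⟨h, hx⟩
        exact hx
      · intro h
        exact ⟨Fin.val_injective, h⟩
    by_cases h : N.arr θ p Fin.val
    · simp only [tv, ind]
      rw [if_pos h, Set.indicator_of_mem (h4.1 h)]
    · simp only [tv, ind]
      rw [if_neg h, Set.indicator_of_notMem (fun h' => h (h4.2 h'))]
  rw [← h2, integral_map hmeas.aemeasurable, integral_map hmeas.aemeasurable]
  · simp_rw [h3] at h1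
    rw [hHG] at h1
    exact h1
  · exact ((measurable_ind (N.meas p)).mul (Finset.measurable_prod _ fun B _ =>
      (measurable_ind (hD B)).comp (measurable_pi_apply _))).aestronglyMeasurable
  · exact ((measurable_ind (N.meas p)).mul (Finset.measurable_prod _ fun B _ =>
      (measurable_ind (hD B)).comp (measurable_pi_apply _))).aestronglyMeasurable

lemma rank_le1 [L.IsRelational] [Finite (Σ n, L.Relations n)] (T : L.Theory) (ℓ : ℕ)
    [StandardBorelSpace X] (μ : Measure X) [IsProbabilityMeasure μ] (N : EucStr L X)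
    (hN : N.IsTon μ T)
    (hkey : KeyV μ N ℓ) : RankLE T (N.law μ) ℓ := by
  have h1 : ∀ p : Σ n, L.Relations n, ∃ S' : Set (Idx (Fin p.1) → X), MeasurableSet S' ∧
      CompatPeon {l : ℕ+ | (l : ℕ) ≤ ℓ} S' ∧
      ∀ᵐ x ∂(Measure.pi fun _ : Idx (Fin p.1) => μ), (x ∈ N.peon p ↔ x ∈ S') := fun p =>
    exists_low μ p.1 ℓ (N.peon p) (N.meas p) fun D hD H G hH hG hHG =>
      box_pi1 μ N ℓ hkey p D hD H G hH hG hHG
  choose S' hS' hC hae using h1
  set N' : EucStr L X := ⟨S', hS'⟩ with hN'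
  have h2 : ∀ᵐ θ ∂(iid μ), N'.arr θ = N.arr θ := by
    have h3 : ∀ (p : Σ n, L.Relations n) (a : Fin p.1 → ℕ), ∀ᵐ θ ∂(iid μ),
        (N'.arr θ p a ↔ N.arr θ p a) := by
      intro p a
      by_cases ha : Function.Injective a
      · have h4 := hae p
        rw [← map_iid μ a ha] at h4
        have h5 := ae_of_ae_map (measurable_pi_lambda _ fun A =>
          measurable_pi_apply _).aemeasurable h4
        filter_upwards [h5] with θ hθ
        constructor
        · rintro ⟨h, hx⟩
          exact ⟨h, hθ.2 hx⟩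
        · rintro ⟨h, hx⟩
          exact ⟨h, hθ.1 hx⟩
      · refine ae_of_all _ fun θ => ?_
        constructor
        · rintro ⟨h, -⟩
          exact absurd h ha
        · rintro ⟨h, -⟩
          exact absurd h ha
    have h4 : ∀ᵐ θ ∂(iid μ), ∀ (p : Σ n, L.Relations n) (a : Fin p.1 → ℕ),
        (N'.arr θ p a ↔ N.arr θ p a) := by
      rw [ae_all_iff]
      intro p
      rw [ae_all_iff]
      exact h3 p
    filter_upwards [h4] with θ hθ
    funext p a
    exact propext (hθ p a)
  refine ⟨X, inferInstance, inferInstance, μ, inferInstance, N', ?_, ?_, ?_⟩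
  · filter_upwards [hN, h2] with θ h3 h4
    rw [h4]
    exact h3
  · exact Measure.map_congr h2
  · exact hC

end Pool.Agent.KS7_39.D52
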