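import Pool.Agent.KS7_39.D52.Cu1

/-!
Rank and couplings with quasirandom hypergraphons of one fixed density.
-/

set_option autoImplicit false

open MeasureTheory ProbabilityTheory

namespace Pool.Agent.KS7_39.D52

open Pool.Agent.R130.Theon Pool.Agent.R130.Theon.RankD

variable {L L' : FirstOrder.Language.{0, 0}} {X Y : Type} [MeasurableSpace X] [MeasurableSpace Y]

/-- the first components -/
def fs (θ : Idx ℕ → X × Y) : Idx ℕ → X := fun A => (θ A).1

omit [MeasurableSpace X] [MeasurableSpace Y] in
lemma fs_apply (θ : Idx ℕ → X × Y) (A : Idx ℕ) : fs θ A = (θ A).1 := rfl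

lemma measurable_fs : Measurable (fs : (Idx ℕ → X × Y) → (Idx ℕ → X)) :=
  measurable_pi_lambda _ fun A => measurable_fst.comp (measurable_pi_apply A)

/-- the Euclidean structure over `X × Y` which ignores the second components -/
def pull (N : EucStr L X) (Y : Type) [MeasurableSpace Y] : EucStr L (X × Y) where
  peon p := (fun x A => (x A).1) ⁻¹' N.peon p
  meas p := (measurable_pi_lambda _ fun A => measurable_fst.comp (measurable_pi_apply A)) (N.meas p)

lemma pull_arr (N : EucStr L X) (θ : Idx ℕ → X × Y) : (pull N Y).arr θ = N.arr (fs θ) := rfl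

variable (μ : Measure X) [IsProbabilityMeasure μ] (ν : Measure Y) [IsProbabilityMeasure ν]

lemma map_fs : (iid (μ.prod ν)).map (fs : (Idx ℕ → X × Y) → (Idx ℕ → X)) = iid μ := by
  refine Measure.eq_infinitePi _ fun s t ht => ?_
  rw [Measure.map_apply measurable_fs (MeasurableSet.pi s.countable_toSet fun i _ => ht i)]
  have : (fs : (Idx ℕ → X × Y) → (Idx ℕ → X)) ⁻¹' (Set.pi (s : Set (Idx ℕ)) t) =
      Set.pi (s : Set (Idx ℕ)) (fun i => t i ×ˢ (Set.univ : Set Y)) := by
    ext θ
    simp [Set.mem_pi, fs]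
  rw [this, Measure.infinitePi_pi _ (fun i _ => (ht i).prod MeasurableSet.univ)]
  refine Finset.prod_congr rfl fun i _ => ?_
  rw [Measure.prod_prod, measure_univ, mul_one]

lemma law_pull (N : EucStr L X) : (pull N Y).law (μ.prod ν) = N.law μ := by
  unfold EucStr.law
  rw [← map_fs μ ν, Measure.map_map N.measurable_arr measurable_fs]
  rfl

lemma ton_pull [L.IsRelational] (N : EucStr L X) (T : L.Theory) (h : N.IsTon μ T) :
    (pull N Y).IsTon (μ.prod ν) T := by
  unfold EucStr.IsTon at h
  rw [← map_fs μ ν] at h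
  exact ae_of_ae_map measurable_fs.aemeasurable h

lemma meas_snd (A₀ : Idx ℕ) (t : Set Y) (ht : MeasurableSet t) :
    (iid (μ.prod ν)) ((fun θ : Idx ℕ → X × Y => (θ A₀).2) ⁻¹' t) = ν t := by
  have h := Measure.infinitePi_pi (fun _ : Idx ℕ => μ.prod ν) (s := {A₀})
    (t := fun _ => (Set.univ : Set X) ×ˢ t) (fun i _ => MeasurableSet.univ.prod ht)
  rw [Finset.prod_singleton, Measure.prod_prod, measure_univ, one_mul] at h
  rw [← h]
  congr 1
  ext θ
  simp

lemma indep_fs (A₀ : Idx ℕ) :
    IndepFun (fs : (Idx ℕ → X × Y) → (Idx ℕ → X)) (fun θ : Idx ℕ → X × Y => (θ A₀).2)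
      (iid (μ.prod ν)) := by
  classical
  have hg : Measurable (fun θ : Idx ℕ → X × Y => (θ A₀).2) :=
    measurable_snd.comp (measurable_pi_apply A₀)
  rw [indepFun_iff_measure_inter_preimage_eq_mul]
  intro S t hS ht
  rw [meas_snd μ ν A₀ t ht]
  rcases eq_or_ne (ν t) 0 with h0 | h0
  · rw [h0, mul_zero]
    refine measure_mono_null Set.inter_subset_right ?_
    rw [meas_snd μ ν A₀ t ht, h0]
  · have hfin : ν t ≠ ⊤ := measure_ne_top _ _
    have key : (ν t)⁻¹ • ((iid (μ.prod ν)).restrict
        ((fun θ : Idx ℕ → X × Y => (θ A₀).2) ⁻¹' t)).map fs = iid μ := by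
      refine Measure.eq_infinitePi _ fun s B hB => ?_
      have hm : MeasurableSet (Set.pi (s : Set (Idx ℕ)) B) :=
        MeasurableSet.pi s.countable_toSet fun i _ => hB i
      rw [Measure.smul_apply, Measure.map_apply measurable_fs hm,
        Measure.restrict_apply (measurable_fs hm), smul_eq_mul]
      have e1 : (fs : (Idx ℕ → X × Y) → (Idx ℕ → X)) ⁻¹' (Set.pi (s : Set (Idx ℕ)) B) ∩
          (fun θ : Idx ℕ → X × Y => (θ A₀).2) ⁻¹' t =
          Set.pi ((insert A₀ s : Finset (Idx ℕ)) : Set (Idx ℕ))
            (fun i => (if i ∈ s then B i else Set.univ) ×ˢ (if i = A₀ then t else Set.univ)) := by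
        ext θ
        simp only [Set.mem_inter_iff, Set.mem_preimage, Set.mem_pi, Finset.mem_coe,
          Finset.mem_insert, Set.mem_prod, fs]
        constructor
        · rintro ⟨h1, h2⟩ i hi
          refine ⟨?_, ?_⟩
          · by_cases his : i ∈ s
            · rw [if_pos his]; exact h1 i his
            · rw [if_neg his]; trivial
          · by_cases hiA : i = A₀
            · rw [if_pos hiA, hiA]; exact h2
            · rw [if_neg hiA]; trivial
        · intro h
          refine ⟨fun i hi => ?_, ?_⟩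
          · have := (h i (Or.inr hi)).1
            rwa [if_pos hi] at this
          · have := (h A₀ (Or.inl rfl)).2
            rwa [if_pos rfl] at this
      have hmeas : ∀ i ∈ (insert A₀ s : Finset (Idx ℕ)), MeasurableSet
          ((if i ∈ s then B i else Set.univ) ×ˢ (if i = A₀ then t else Set.univ) : Set (X × Y)) := by
        intro i _
        refine MeasurableSet.prod ?_ ?_
        · split_ifs
          · exact hB i
          · exact MeasurableSet.univ
        · split_ifs
          · exact ht
          · exact MeasurableSet.univ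
      rw [e1, Measure.infinitePi_pi _ hmeas]
      simp only [Measure.prod_prod]
      rw [Finset.prod_mul_distrib]
      have e2 : ∏ i ∈ insert A₀ s, ν (if i = A₀ then t else Set.univ) = ν t := by
        rw [Finset.prod_eq_single A₀]
        · rw [if_pos rfl]
        · intro b _ hb
          rw [if_neg hb, measure_univ]
        · intro h; exact absurd (Finset.mem_insert_self _ _) h
      have e3 : ∏ i ∈ insert A₀ s, μ (if i ∈ s then B i else Set.univ) = ∏ i ∈ s, μ (B i) := by
        by_cases hA : A₀ ∈ s
        · rw [Finset.insert_eq_of_mem hA]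
          exact Finset.prod_congr rfl fun i hi => by rw [if_pos hi]
        · rw [Finset.prod_insert hA, if_neg hA, measure_univ, one_mul]
          exact Finset.prod_congr rfl fun i hi => by rw [if_pos hi]
      rw [e2, e3, mul_comm (∏ i ∈ s, μ (B i)), ← mul_assoc, ENNReal.inv_mul_cancel h0 hfin, one_mul]
    have h1 : (iid μ) S = (ν t)⁻¹ * (iid (μ.prod ν)) (fs ⁻¹' S ∩
        (fun θ : Idx ℕ → X × Y => (θ A₀).2) ⁻¹' t) := by
      rw [← key, Measure.smul_apply, Measure.map_apply measurable_fs hS,
        Measure.restrict_apply (measurable_fs hS), smul_eq_mul]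
    have h2 : (iid (μ.prod ν)) (fs ⁻¹' S) = (iid μ) S := by
      rw [← map_fs μ ν, Measure.map_apply measurable_fs hS]
    rw [h2, h1, mul_comm ((ν t)⁻¹), mul_assoc, ENNReal.inv_mul_cancel h0 hfin, mul_one]

lemma integral_fs_mul (A₀ : Idx ℕ) (F : (Idx ℕ → X) → ℝ) (hF : Measurable F) (h : Y → ℝ)
    (hh : Measurable h) :
    ∫ θ, F (fs θ) * h (θ A₀).2 ∂(iid (μ.prod ν)) = (∫ θ, F θ ∂(iid μ)) * ∫ y, h y ∂ν := by
  have hg : Measurable (fun θ : Idx ℕ → X × Y => (θ A₀).2) :=
    measurable_snd.comp (measurable_pi_apply A₀)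
  have h1 := (indep_fs μ ν A₀).comp hF hh
  have h2 := h1.integral_fun_mul_eq_mul_integral (hF.comp measurable_fs).aestronglyMeasurable
    (hh.comp hg).aestronglyMeasurable
  have h3 : (iid (μ.prod ν)).map (fun θ : Idx ℕ → X × Y => (θ A₀).2) = ν := by
    ext t ht
    rw [Measure.map_apply hg ht, meas_snd μ ν A₀ t ht]
  simp only [Function.comp] at h2
  rw [h2]
  congr 1
  · rw [← map_fs μ ν, integral_map measurable_fs.aemeasurable hF.aestronglyMeasurable]
  · conv_rhs => rw [← h3]
    rw [integral_map hg.aemeasurable hh.aestronglyMeasurable]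

end Pool.Agent.KS7_39.D52
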