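import Pool.Agent.KS7_39.D52.Cu2

/-!
Rank and couplings with quasirandom hypergraphons of one fixed density: the main step.
-/

set_option autoImplicit false

open MeasureTheory ProbabilityTheory

namespace Pool.Agent.KS7_39.D52

open Pool.Agent.R130.Theon Pool.Agent.R130.Theon.RankD

variable {L L' : FirstOrder.Language.{0, 0}} {X Y : Type} [MeasurableSpace X] [MeasurableSpace Y]

/-- the structure given by truth values at the finite sets -/
def gst (m : ℕ) (y : Idx ℕ → Prop) : Str (langOne m) := fun p a =>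
  ∃ (h : Function.Injective a) (h' : (Finset.univ : Finset (Fin p.1)).Nonempty),
    y (Idx.map ⟨a, h⟩ ⟨Finset.univ, h'⟩)

lemma measurable_gst (m : ℕ) : Measurable (gst m) := by
  refine measurable_pi_lambda _ fun p => measurable_pi_lambda _ fun a => ?_
  by_cases h : Function.Injective a ∧ (Finset.univ : Finset (Fin p.1)).Nonempty
  · have : (fun y : Idx ℕ → Prop => gst m y p a) =
        fun y => y (Idx.map ⟨a, h.1⟩ ⟨Finset.univ, h.2⟩) := by
      funext y
      simp [gst, h.1, h.2]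
    rw [this]
    exact measurable_pi_apply _
  · have : (fun y : Idx ℕ → Prop => gst m y p a) = fun _ => False := by
      funext y
      apply propext
      constructor
      · rintro ⟨h1, h2, -⟩
        exact h ⟨h1, h2⟩
      · exact False.elim
    rw [this]
    exact measurable_const

lemma NU_law (m : ℕ) (μ : Measure X) [IsProbabilityMeasure μ] (U : Set X)
    (hU : MeasurableSet U) : (NU m U hU).law μ =
      (Measure.infinitePi (fun _ : Idx ℕ => μ.map (fun x => x ∈ U))).map (gst m) := by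
  have hUm : Measurable (fun x : X => x ∈ U) := measurableSet_setOfPred.1 hU
  have h1 := Measure.infinitePi_map_pi (μ := fun _ : Idx ℕ => μ)
    (f := fun (_ : Idx ℕ) (x : X) => x ∈ U) (fun _ => hUm)
  have hg : Measurable (fun (x : Idx ℕ → X) (i : Idx ℕ) => x i ∈ U) :=
    measurable_pi_lambda _ fun A => hUm.comp (measurable_pi_apply A)
  rw [← h1, Measure.map_map (measurable_gst m) hg]
  rfl

lemma NU_law_eq (m : ℕ) (μ : Measure X) [IsProbabilityMeasure μ] (ν : Measure Y)
    [IsProbabilityMeasure ν] {U : Set X} {V : Set Y} (hU : MeasurableSet U) (hV : MeasurableSet V)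
    (h : μ U = ν V) : (NU m U hU).law μ = (NU m V hV).law ν := by
  have hUm : Measurable (fun x : X => x ∈ U) := measurableSet_setOfPred.1 hU
  have hVm : Measurable (fun x : Y => x ∈ V) := measurableSet_setOfPred.1 hV
  have key : μ.map (fun x => x ∈ U) = ν.map (fun x => x ∈ V) := by
    refine Measure.ext_of_singleton fun P => ?_
    rw [Measure.map_apply hUm (measurableSet_singleton P),
      Measure.map_apply hVm (measurableSet_singleton P)]
    by_cases hP : P
    · have e1 : (fun x : X => x ∈ U) ⁻¹' {P} = U := by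
        ext x; simp [hP]
      have e2 : (fun x : Y => x ∈ V) ⁻¹' {P} = V := by
        ext x; simp [hP]
      rw [e1, e2, h]
    · have e1 : (fun x : X => x ∈ U) ⁻¹' {P} = Uᶜ := by
        ext x; simp [hP]
      have e2 : (fun x : Y => x ∈ V) ⁻¹' {P} = Vᶜ := by
        ext x; simp [hP]
      rw [e1, e2, prob_compl_eq_one_sub hU, prob_compl_eq_one_sub hV, h]
  rw [NU_law, NU_law]
  simp_rw [key]

/-- Lebesgue measure of the unit interval, as a measure on `ℝ` -/
noncomputable def leb : Measure ℝ := volume.restrict (Set.Icc 0 1)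

instance : IsProbabilityMeasure leb := ⟨by simp [leb]⟩

lemma leb_Iio {s : ℝ} (h0 : 0 ≤ s) (h1 : s ≤ 1) : leb (Set.Iio s) = ENNReal.ofReal s := by
  rw [leb, Measure.restrict_apply measurableSet_Iio]
  have : Set.Iio s ∩ Set.Icc 0 1 = Set.Ico 0 s := by
    ext x
    simp only [Set.mem_inter_iff, Set.mem_Iio, Set.mem_Icc, Set.mem_Ico]
    constructor
    · rintro ⟨h, h2, -⟩; exact ⟨h2, h⟩
    · rintro ⟨h, h2⟩; exact ⟨h2, h, by linarith⟩
  rw [this, Real.volume_Ico, sub_zero]

variable (μ : Measure X) [IsProbabilityMeasure μ]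

/-- the mixed set -/
def mixS (U : Set X) (s t : ℝ) : Set (X × ℝ) := (U ×ˢ Set.Iio s) ∪ (Uᶜ ×ˢ Set.Iio t)

lemma mixS_meas {U : Set X} (hU : MeasurableSet U) (s t : ℝ) : MeasurableSet (mixS U s t) :=
  (hU.prod measurableSet_Iio).union (hU.compl.prod measurableSet_Iio)

lemma mixS_measure {U : Set X} (hU : MeasurableSet U) {s t : ℝ} (hs0 : 0 ≤ s) (hs1 : s ≤ 1)
    (ht0 : 0 ≤ t) (ht1 : t ≤ 1) : (μ.prod leb) (mixS U s t) =
      ENNReal.ofReal (μ.real U * s + (1 - μ.real U) * t) := by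
  have hd : Disjoint (U ×ˢ Set.Iio s) (Uᶜ ×ˢ Set.Iio t) :=
    Set.disjoint_left.2 fun x h1 h2 => h2.1 h1.1
  have hq0 : 0 ≤ μ.real U := measureReal_nonneg
  have hq1 : μ.real U ≤ 1 := measureReal_le_one
  rw [mixS, measure_union hd (hU.compl.prod measurableSet_Iio), Measure.prod_prod,
    Measure.prod_prod, leb_Iio hs0 hs1, leb_Iio ht0 ht1, prob_compl_eq_one_sub hU,
    ENNReal.ofReal_add (mul_nonneg hq0 hs0) (mul_nonneg (by linarith) ht0),
    ENNReal.ofReal_mul hq0, ENNReal.ofReal_mul (by linarith), ENNReal.ofReal_sub _ hq0,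
    ENNReal.ofReal_one, Measure.real, ENNReal.ofReal_toReal (measure_ne_top _ _)]

omit [MeasurableSpace X] in
lemma ind_mixS (U : Set X) (s t : ℝ) (z : X × ℝ) :
    ind (mixS U s t) z = ind U z.1 * (ind (Set.Iio s) z.2 - ind (Set.Iio t) z.2) +
      ind (Set.Iio t) z.2 := by
  unfold ind mixS
  by_cases h1 : z.1 ∈ U
  · by_cases h2 : z.2 < s
    · simp [Set.indicator, h1, h2]
    · simp [Set.indicator, h1, h2]
  · by_cases h2 : z.2 < t
    · simp [Set.indicator, h1, h2]
    · simp [Set.indicator, h1, h2]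

/-- The key integrals vanish if the array is independent of the quasirandom hypergraphs of one
density in each uniformity. -/
theorem keyV_of_tests (N : EucStr L X) (ℓ : ℕ) (p : ℕ → ℝ) (hp : ∀ m, 0 < p m ∧ p m < 1)
    (hind : ∀ (m : ℕ) (V : Set (X × ℝ)) (hV : MeasurableSet V), ℓ < m →
      (∃ r : Σ n, L.Relations n, m ≤ r.1) → (μ.prod leb) V = ENNReal.ofReal (p m) →
      IndepFun (pull N ℝ).arr (NU m V hV).arr (iid (μ.prod leb))) : KeyV μ N ℓ := by
  classical
  intro r A₀ hA₀ U hU D hD G hG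
  obtain ⟨m, hm⟩ : ∃ m, m = (im r.1 A₀).1.card := ⟨_, rfl⟩
  have hcard : (im r.1 A₀).1.card = A₀.1.card := by simp [im, Idx.map]
  obtain ⟨hp0, hp1⟩ := hp m
  set q : ℝ := μ.real U with hq
  have hq0 : 0 ≤ q := measureReal_nonneg
  have hq1 : q ≤ 1 := measureReal_le_one
  obtain ⟨ε, hε0, hεp, hεp'⟩ : ∃ ε : ℝ, 0 < ε ∧ ε ≤ p m ∧ ε ≤ 1 - p m :=
    ⟨min (p m) (1 - p m), lt_min hp0 (by linarith), min_le_left _ _, min_le_right _ _⟩
  set s : ℝ := p m + ε * (1 - q) with hs
  set t : ℝ := p m - ε * q with ht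
  have hs0 : 0 ≤ s := by
    have := mul_nonneg hε0.le (by linarith : 0 ≤ 1 - q); linarith
  have hs1 : s ≤ 1 := by nlinarith
  have ht0 : 0 ≤ t := by nlinarith
  have ht1 : t ≤ 1 := by
    have := mul_nonneg hε0.le hq0; linarith
  have hV := mixS_meas hU s t
  have hVm : (μ.prod leb) (mixS U s t) = ENNReal.ofReal (p m) := by
    rw [mixS_measure μ hU hs0 hs1 ht0 ht1]
    congr 1
    rw [hs, ht, ← hq]; ring
  have hVr : (μ.prod leb).real (mixS U s t) = p m := by
    rw [Measure.real, hVm, ENNReal.toReal_ofReal hp0.le]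
  have hI := hind m (mixS U s t) hV (by rw [hm, hcard]; exact hA₀)
    ⟨r, by
      rw [hm, hcard]
      exact (Finset.card_le_univ _).trans (by rw [Fintype.card_fin])⟩ hVm
  subst hm
  have key := key_gcs1 (μ.prod leb) (pull N ℝ) r A₀ (mixS U s t) hV hI
    (fun B => (D B) ×ˢ Set.univ) (fun B => (hD B).prod MeasurableSet.univ) G hG
  rw [hVr] at key
  -- the two functions of the first components
  obtain ⟨F2, hF2⟩ : ∃ F2 : (Idx ℕ → X) → ℝ, F2 = fun θ =>
    tv r (N.arr θ) * ∏ B ∈ G, ind (D B) (θ (im r.1 B)) := ⟨_, rfl⟩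
  obtain ⟨F1, hF1⟩ : ∃ F1 : (Idx ℕ → X) → ℝ, F1 = fun θ => ind U (θ (im r.1 A₀)) * F2 θ :=
    ⟨_, rfl⟩
  have mt : Measurable fun θ : Idx ℕ → X => tv r (N.arr θ) :=
    (measurable_tv r).comp N.measurable_arr
  have mF2 : Measurable F2 := by rw [hF2]; exact mt.mul (measurable_boxI D hD G)
  have mF1 : Measurable F1 := by
    rw [hF1]; exact ((measurable_ind hU).comp (measurable_pi_apply _)).mul mF2
  have bF2 : ∀ θ, |F2 θ| ≤ 1 := fun θ => by
    rw [hF2, abs_mul]
    exact mul_le_one₀ (tv_bdd _ _) (abs_nonneg _) (bdd_ind_prod D _ (fun B => θ (im r.1 B)))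
  have bF1 : ∀ θ, |F1 θ| ≤ 1 := fun θ => by
    rw [hF1, abs_mul]
    exact mul_le_one₀ (ind_bdd _ _) (abs_nonneg _) (bF2 θ)
  have h1 : ∀ θ : Idx ℕ → X × ℝ,
      (tv r ((pull N ℝ).arr θ) * (ind (mixS U s t) (θ (im r.1 A₀)) - p (im r.1 A₀).1.card)) *
        ∏ B ∈ G, ind ((D B) ×ˢ (Set.univ : Set ℝ)) (θ (im r.1 B)) =
      F1 (fs θ) * (fun y => ind (Set.Iio s) y - ind (Set.Iio t) y) (θ (im r.1 A₀)).2 +
        F2 (fs θ) * (fun y => ind (Set.Iio t) y - p (im r.1 A₀).1.card) (θ (im r.1 A₀)).2 := by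
    intro θ
    have e1 : ∀ B, ind ((D B) ×ˢ (Set.univ : Set ℝ)) (θ (im r.1 B)) =
        ind (D B) (fs θ (im r.1 B)) := by
      intro B
      unfold ind fs
      by_cases h : (θ (im r.1 B)).1 ∈ D B
      · simp [Set.indicator, h]
      · simp [Set.indicator, h]
    simp only [e1]
    rw [pull_arr, ind_mixS, hF1, hF2]
    simp only [fs_apply]
    ring
  have mh1 : Measurable (fun y : ℝ => ind (Set.Iio s) y - ind (Set.Iio t) y) :=
    (measurable_ind measurableSet_Iio).sub (measurable_ind measurableSet_Iio)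
  have mh2 : Measurable (fun y : ℝ => ind (Set.Iio t) y - p (im r.1 A₀).1.card) :=
    (measurable_ind measurableSet_Iio).sub measurable_const
  have hev : Measurable (fun θ : Idx ℕ → X × ℝ => (θ (im r.1 A₀)).2) :=
    measurable_snd.comp (measurable_pi_apply _)
  have i1 : Integrable (fun θ : Idx ℕ → X × ℝ => F1 (fs θ) *
      (fun y => ind (Set.Iio s) y - ind (Set.Iio t) y) (θ (im r.1 A₀)).2) (iid (μ.prod leb)) := by
    refine gcs_integrable _ _ ((mF1.comp measurable_fs).mul (mh1.comp hev)) ⟨1 * (1 + 1),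
      fun θ => ?_⟩
    rw [abs_mul]
    exact mul_le_mul (bF1 _) ((abs_sub _ _).trans (add_le_add (ind_bdd _ _) (ind_bdd _ _)))
      (abs_nonneg _) zero_le_one
  have i2 : Integrable (fun θ : Idx ℕ → X × ℝ => F2 (fs θ) *
      (fun y => ind (Set.Iio t) y - p (im r.1 A₀).1.card) (θ (im r.1 A₀)).2)
      (iid (μ.prod leb)) := by
    refine gcs_integrable _ _ ((mF2.comp measurable_fs).mul (mh2.comp hev)) ⟨1 * (1 + 1),
      fun θ => ?_⟩
    rw [abs_mul]
    refine mul_le_mul (bF2 _) ((abs_sub _ _).trans (add_le_add (ind_bdd _ _) ?_))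
      (abs_nonneg _) zero_le_one
    rw [abs_of_pos hp0]; exact hp1.le
  have il : ∀ u : ℝ, 0 ≤ u → u ≤ 1 → ∫ y, ind (Set.Iio u) y ∂leb = u := fun u h0 h1 => by
    rw [integral_ind leb measurableSet_Iio, Measure.real, leb_Iio h0 h1, ENNReal.toReal_ofReal h0]
  have iint : ∀ u : ℝ, Integrable (fun y => ind (Set.Iio u) y) leb := fun u =>
    gcs_integrable leb _ (measurable_ind measurableSet_Iio) ⟨1, ind_bdd _⟩
  simp_rw [h1] at key
  rw [integral_add i1 i2, integral_fs_mul μ leb _ F1 mF1 _ mh1,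
    integral_fs_mul μ leb _ F2 mF2 _ mh2, integral_sub (iint s) (iint t),
    integral_sub (iint t) (integrable_const _), il s hs0 hs1, il t ht0 ht1] at key
  simp only [integral_const, probReal_univ, one_smul] at key
  have iF1 : Integrable F1 (iid μ) := gcs_integrable _ _ mF1 ⟨1, bF1⟩
  have iF2 : Integrable F2 (iid μ) := gcs_integrable _ _ mF2 ⟨1, bF2⟩
  have h2 : ∫ θ, (tv r (N.arr θ) * (ind U (θ (im r.1 A₀)) - q)) *
      ∏ B ∈ G, ind (D B) (θ (im r.1 B)) ∂(iid μ) = (∫ θ, F1 θ ∂(iid μ)) - q * ∫ θ, F2 θ ∂(iid μ) := by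
    rw [← integral_const_mul, ← integral_sub iF1 (iF2.const_mul q)]
    congr 1
    funext θ
    rw [hF1, hF2]
    ring
  rw [h2]
  have h3 : ε * ((∫ θ, F1 θ ∂(iid μ)) - q * ∫ θ, F2 θ ∂(iid μ)) = 0 := by
    rw [hs, ht] at key
    linarith
  exact (mul_eq_zero.1 h3).resolve_left hε0.ne'

end Pool.Agent.KS7_39.D52
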