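import Pool.Agent.KS7_39.D52.Cu3

/-!
Symmetry of unique coupleability, and the characterizations of the rank.
-/

set_option autoImplicit false

open MeasureTheory ProbabilityTheory

namespace Pool.Agent.KS7_39.D52

open Pool.Agent.R130.Theon Pool.Agent.R130.Theon.RankD

variable {L L' : FirstOrder.Language.{0, 0}} {X Y : Type} [MeasurableSpace X] [MeasurableSpace Y]

/-- exchange of the two languages -/
def swS (K : Str (L.sum L')) : Str (L'.sum L) := join (redR K, redL K)

lemma measurable_swS : Measurable (swS : Str (L.sum L') → Str (L'.sum L)) :=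
  measurable_join.comp (measurable_redR.prodMk measurable_redL)

lemma swS_swS (K : Str (L.sum L')) : swS (swS K) = K := by
  unfold swS
  rw [redR_join, redL_join, join_red]

lemma union_models [L.IsRelational] [L'.IsRelational] (T : L.Theory) (T' : L'.Theory)
    (K : Str (L.sum L')) (h : K.Models (unionTheory T T')) :
    (redL K).Models T ∧ (redR K).Models T' := by
  unfold Str.Models unionTheory at *
  let s0 : (L.sum L').Structure ℕ := K.toStructure
  let s1 : L.Structure ℕ := (redL K).toStructure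
  let s2 : L'.Structure ℕ := (redR K).toStructure
  have e1 : (FirstOrder.Language.LHom.sumInl : L →ᴸ L.sum L').IsExpansionOn ℕ :=
    ⟨fun f => isEmptyElim f, fun _ _ => rfl⟩
  have e2 : (FirstOrder.Language.LHom.sumInr : L' →ᴸ L.sum L').IsExpansionOn ℕ :=
    ⟨fun f => isEmptyElim f, fun _ _ => rfl⟩
  rw [FirstOrder.Language.Theory.model_union_iff] at h
  exact ⟨(FirstOrder.Language.LHom.onTheory_model _ T).1 h.1,
    (FirstOrder.Language.LHom.onTheory_model _ T').1 h.2⟩

/-- the Euclidean structure with exchanged languages -/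
def swN (N : EucStr (L.sum L') X) : EucStr (L'.sum L) X where
  peon := fun p => match p with
    | ⟨n, Sum.inl r⟩ => N.peon ⟨n, Sum.inr r⟩
    | ⟨n, Sum.inr r⟩ => N.peon ⟨n, Sum.inl r⟩
  meas := fun p => match p with
    | ⟨n, Sum.inl r⟩ => N.meas ⟨n, Sum.inr r⟩
    | ⟨n, Sum.inr r⟩ => N.meas ⟨n, Sum.inl r⟩

lemma swN_arr (N : EucStr (L.sum L') X) (θ : Idx ℕ → X) : (swN N).arr θ = swS (N.arr θ) := by
  funext p a
  rcases p with ⟨n, r | r⟩ <;> rfl

theorem coupling_swap [L.IsRelational] [L'.IsRelational] (T : L.Theory) (T' : L'.Theory)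
    (φ : Measure (Str L)) (ψ : Measure (Str L')) (ξ : Measure (Str (L.sum L')))
    (h : IsCoupling T T' φ ψ ξ) : IsCoupling T' T ψ φ (ξ.map swS) := by
  obtain ⟨⟨X, mX, sX, μ, pμ, N, hN, rfl⟩, h1, h2⟩ := h
  refine ⟨⟨X, mX, sX, μ, pμ, swN N, ?_, ?_⟩, ?_, ?_⟩
  · filter_upwards [hN] with θ hθ
    obtain ⟨h3, h4⟩ := union_models T T' _ hθ
    rw [swN_arr]
    exact models_union T' T _ h4 h3
  · unfold EucStr.law
    rw [Measure.map_map measurable_swS N.measurable_arr]
    congr 1
    funext θ
    exact swN_arr N θ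
  · rw [Measure.map_map measurable_redL measurable_swS, ← h2]
    rfl
  · rw [Measure.map_map measurable_redR measurable_swS, ← h1]
    rfl

theorem indep_swap (φ : Measure (Str L)) (ψ : Measure (Str L')) [SFinite φ] [SFinite ψ] :
    (indepCoupling φ ψ).map swS = indepCoupling ψ φ := by
  unfold indepCoupling
  have h : (swS ∘ join : Str L × Str L' → Str (L'.sum L)) = join ∘ Prod.swap := by
    funext K
    unfold swS
    simp only [Function.comp, redR_join, redL_join]
    rfl
  rw [Measure.map_map measurable_swS measurable_join, h,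
    ← Measure.map_map measurable_join measurable_swap, Measure.prod_swap]

theorem uc_symm [L.IsRelational] [L'.IsRelational] (T : L.Theory) (T' : L'.Theory)
    (φ : Measure (Str L)) (ψ : Measure (Str L')) [SFinite φ] [SFinite ψ]
    (h : UniquelyCoupleable T T' φ ψ) : UniquelyCoupleable T' T ψ φ := by
  intro ξ hξ
  have h1 := h _ (coupling_swap T' T ψ φ ξ hξ)
  have h2 : (ξ.map swS).map swS = ξ := by
    rw [Measure.map_map measurable_swS measurable_swS]
    have : (swS ∘ swS : Str (L'.sum L) → Str (L'.sum L)) = id := by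
      funext K
      exact swS_swS K
    rw [this, Measure.map_id]
  rw [← h2, h1, indep_swap]

lemma limit_prob [L.IsRelational] {T : L.Theory} {φ : Measure (Str L)} (h : IsLimit T φ) :
    IsProbabilityMeasure φ := by
  obtain ⟨X, mX, sX, μ, pμ, N, hN, rfl⟩ := h
  infer_instance

/-- The quasirandom `m`-hypergraphon of density `p`: the law of the random structure in which
`P(a)` holds iff `a` is injective and the coordinate of the set of all the `m` entries of `a` is
less than `p`; the coordinates are independent and uniform in `[0, 1]`. -/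
noncomputable def quasirandom (m : ℕ) (p : ℝ) : Measure (Str (langOne m)) :=
  (NU m (Set.Iio p) measurableSet_Iio).law leb

lemma empty_universal (m : ℕ) :
    FirstOrder.Language.Theory.IsUniversal (∅ : (langOne m).Theory) :=
  ⟨fun φ hφ => absurd hφ (Set.notMem_empty φ)⟩

lemma NU_ton (m : ℕ) (μ : Measure X) [IsProbabilityMeasure μ] (U : Set X)
    (hU : MeasurableSet U) : (NU m U hU).IsTon μ (∅ : (langOne m).Theory) :=
  ae_of_all _ fun θ =>
    @FirstOrder.Language.model_empty (langOne m) ℕ ((NU m U hU).arr θ).toStructure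

lemma quasirandom_limit (m : ℕ) (p : ℝ) :
    IsLimit (∅ : (langOne m).Theory) (quasirandom m p) :=
  ⟨ℝ, inferInstance, inferInstance, leb, inferInstance, NU m (Set.Iio p) measurableSet_Iio,
    NU_ton m leb _ _, rfl⟩

lemma quasirandom_ucouple (m : ℕ) (p : ℝ) (ℓ : ℕ) (h : ℓ < m) :
    UCouple (∅ : (langOne m).Theory) (quasirandom m p) ℓ :=
  uCouple_of_indep ∅ leb (NU m (Set.Iio p) measurableSet_Iio) ℓ
    (indep_NU leb m _ measurableSet_Iio ℓ h)

/-- Finitely many tests suffice. -/
theorem rank_of_tests [L.IsRelational] [Finite (Σ n, L.Relations n)] (ℓ : ℕ) (T : L.Theory)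
    (φ : Measure (Str L)) (hφ : IsLimit T φ) (p : ℕ → ℝ) (hp : ∀ m, 0 < p m ∧ p m < 1)
    (h : ∀ m, ℓ < m → (∃ r : Σ n, L.Relations n, m ≤ r.1) →
      UniquelyCoupleable T (∅ : (langOne m).Theory) φ (quasirandom m (p m))) :
    RankLE T φ ℓ := by
  obtain ⟨X, mX, sX, μ, pμ, N, hN, rfl⟩ := hφ
  refine rank_le1 T ℓ μ N hN (keyV_of_tests μ N ℓ p hp fun m V hV hm hr hVp => ?_)
  have h1 := h m hm hr
  have h2 : quasirandom m (p m) = (NU m V hV).law (μ.prod leb) := by
    refine NU_law_eq m leb (μ.prod leb) measurableSet_Iio hV ?_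
    rw [leb_Iio (hp m).1.le (hp m).2.le, hVp]
  rw [← law_pull μ leb N, h2] at h1
  exact indep_of_uc T ∅ (μ.prod leb) (pull N ℝ) (NU m V hV) (ton_pull μ leb N T hN)
    (NU_ton m _ _ _) h1

end Pool.Agent.KS7_39.D52
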